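import Mathlib

/-!
# Rings of matrices equal to their derived Lie ring
-/

open Polynomial Matrix

namespace Pool.Agent.TH537.LV

variable {C : Type*} [CommRing C] {n : ℕ}

/-- The determinant of a polynomial with matrix coefficients. -/
noncomputable def dt (F : (Matrix (Fin n) (Fin n) C)[X]) : C[X] := (matPolyEquiv.symm F).det

lemma dt_mul (F G : (Matrix (Fin n) (Fin n) C)[X]) : dt (F * G) = dt F * dt G := by
  unfold dt
  rw [map_mul, det_mul]

/-- The polynomial `det (1 + X w)`. -/
noncomputable def e (w : Matrix (Fin n) (Fin n) C) : C[X] := dt (1 + X * Polynomial.C w)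

lemma dt_pow_eq (w : Matrix (Fin n) (Fin n) C) (i : ℕ) :
    dt (1 + X ^ i * Polynomial.C w) = det (1 + ((X : C[X]) ^ i) • w.map Polynomial.C) := by
  unfold dt
  congr 1
  rw [map_add, map_one, map_mul, map_pow, matPolyEquiv_symm_X, matPolyEquiv_symm_C,
    Matrix.diagonal_pow]
  congr 1
  ext a b
  simp [Matrix.diagonal_mul]

lemma e_eq (w : Matrix (Fin n) (Fin n) C) :
    e w = det (1 + (X : C[X]) • w.map Polynomial.C) := by
  have := dt_pow_eq w 1
  rw [pow_one, pow_one] at this
  exact this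

lemma dt_expand (w : Matrix (Fin n) (Fin n) C) (i : ℕ) :
    dt (1 + X ^ i * Polynomial.C w) = expand C i (e w) := by
  rw [dt_pow_eq, e_eq, AlgHom.map_det]
  congr 1
  ext a b
  by_cases hab : a = b
  · subst hab
    simp
  · simp [hab]

lemma dt_congr (F G H : (Matrix (Fin n) (Fin n) C)[X]) (k : ℕ) (h : F = G + X ^ k * H) :
    (X : C[X]) ^ k ∣ dt F - dt G := by
  rw [← Ideal.mem_span_singleton, ← Ideal.Quotient.eq]
  unfold dt
  rw [RingHom.map_det, RingHom.map_det]
  congr 1
  subst h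
  rw [map_add, map_add, map_mul, map_pow, matPolyEquiv_symm_X, map_mul, Matrix.diagonal_pow]
  have h0 : (Ideal.Quotient.mk (Ideal.span {(X : C[X]) ^ k})).mapMatrix
      (Matrix.diagonal ((fun _ : Fin n => (X : C[X])) ^ k)) = 0 := by
    ext a b
    by_cases hab : a = b
    · subst hab
      simp only [RingHom.mapMatrix_apply, Matrix.map_apply, Matrix.diagonal_apply_eq,
        Pi.pow_apply, Matrix.zero_apply]
      rw [Ideal.Quotient.eq_zero_iff_mem]
      exact Ideal.mem_span_singleton_self _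
    · simp [hab]
  rw [h0, zero_mul, add_zero]

lemma e_mul_comm (r s : Matrix (Fin n) (Fin n) C) : e (r * s) = e (s * r) := by
  have h : ∀ r s : Matrix (Fin n) (Fin n) C,
      (X : C[X]) • (r * s).map Polynomial.C
        = ((X : C[X]) • r.map Polynomial.C) * s.map Polynomial.C := by
    intro r s
    rw [Matrix.smul_mul, Matrix.map_mul]
  have h' : ∀ r s : Matrix (Fin n) (Fin n) C,
      (X : C[X]) • (r * s).map Polynomial.C
        = r.map Polynomial.C * ((X : C[X]) • s.map Polynomial.C) := by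
    intro r s
    rw [Matrix.mul_smul, Matrix.map_mul]
  rw [e_eq, e_eq, h r s, Matrix.det_one_add_mul_comm, h' s r]

lemma e_zero : e (0 : Matrix (Fin n) (Fin n) C) = 1 := by
  rw [e_eq]
  simp

lemma e_coeff_zero (w : Matrix (Fin n) (Fin n) C) : (e w).coeff 0 = 1 := by
  rw [coeff_zero_eq_eval_zero, e_eq, ← coe_evalRingHom, RingHom.map_det]
  have : (evalRingHom (0 : C)).mapMatrix (1 + (X : C[X]) • w.map Polynomial.C) = 1 := by
    ext a b
    by_cases hab : a = b
    · subst hab
      simp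
    · simp [hab]
  rw [this, det_one]

/-- If the coefficients `1, …, k` of `P` vanish and the constant one is `1`, then
`P ≡ 1` modulo `X^(k+1)`. -/
lemma dvd_sub_one {P : C[X]} {k : ℕ} (h0 : P.coeff 0 = 1)
    (h : ∀ j, 1 ≤ j → j ≤ k → P.coeff j = 0) : (X : C[X]) ^ (k + 1) ∣ P - 1 := by
  rw [X_pow_dvd_iff]
  intro d hd
  rw [coeff_sub, coeff_one]
  rcases Nat.eq_zero_or_pos d with rfl | hd0
  · simp [h0]
  · rw [h d hd0 (by omega), if_neg (by omega), sub_zero]

lemma expand_dvd {P : C[X]} {k i : ℕ} (h : (X : C[X]) ^ (k + 1) ∣ P - 1) (hi : 2 ≤ i) :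
    (X : C[X]) ^ (k + 2) ∣ expand C i P - 1 := by
  obtain ⟨Q, hQ⟩ := h
  have : expand C i P - 1 = (X : C[X]) ^ (i * (k + 1)) * expand C i Q := by
    have h2 := congrArg (expand C i) hQ
    rw [map_sub, map_one, map_mul, map_pow, expand_X, ← pow_mul] at h2
    exact h2
  rw [this]
  apply Dvd.dvd.mul_right
  apply pow_dvd_pow
  nlinarith

section main

variable (R : NonUnitalSubring (Matrix (Fin n) (Fin n) C))

/-- Polynomials with coefficients in `R`. -/
def T : Set (Matrix (Fin n) (Fin n) C)[X] := {p | ∀ i, p.coeff i ∈ R}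

variable {R}

lemma T_add {p q : (Matrix (Fin n) (Fin n) C)[X]} (hp : p ∈ T R) (hq : q ∈ T R) :
    p + q ∈ T R := fun i => by
  rw [coeff_add]
  exact add_mem (hp i) (hq i)

lemma T_sub {p q : (Matrix (Fin n) (Fin n) C)[X]} (hp : p ∈ T R) (hq : q ∈ T R) :
    p - q ∈ T R := fun i => by
  rw [coeff_sub]
  exact sub_mem (hp i) (hq i)

lemma T_mul {p q : (Matrix (Fin n) (Fin n) C)[X]} (hp : p ∈ T R) (hq : q ∈ T R) :
    p * q ∈ T R := fun i => by
  rw [coeff_mul]
  exact sum_mem fun x _ => mul_mem (hp _) (hq _)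

lemma T_X_pow {p : (Matrix (Fin n) (Fin n) C)[X]} (hp : p ∈ T R) (m : ℕ) :
    X ^ m * p ∈ T R := fun i => by
  rw [coeff_X_pow_mul']
  split_ifs
  · exact hp _
  · exact zero_mem R

lemma T_C {w : Matrix (Fin n) (Fin n) C} (hw : w ∈ R) : Polynomial.C w ∈ T R := fun i => by
  rw [coeff_C]
  split_ifs
  · exact hw
  · exact zero_mem R

lemma T_divX {p : (Matrix (Fin n) (Fin n) C)[X]} (hp : p ∈ T R) : p.divX ∈ T R := fun i => by
  rw [coeff_divX]
  exact hp _

lemma dvd_mul_sub {D A B E : C[X]} (h1 : D ∣ A - E) (h2 : D ∣ B - 1) : D ∣ A * B - E := by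
  have : A * B - E = A * (B - 1) + (A - E) := by ring
  rw [this]
  exact dvd_add (Dvd.dvd.mul_left h2 _) h1

/-- The factorization. -/
lemma factor {k : ℕ} (hk : ∀ w ∈ R, ∀ j, 1 ≤ j → j ≤ k → (e w).coeff j = 0)
    {r s : Matrix (Fin n) (Fin n) C} (hr : r ∈ R) (hs : s ∈ R) (m : ℕ) :
    ∃ G H : (Matrix (Fin n) (Fin n) C)[X], G ∈ T R ∧ H ∈ T R ∧
      (1 + X * Polynomial.C r) * (1 + X * Polynomial.C s) = (1 + X * G) + X ^ (m + 2) * H ∧
      (X : C[X]) ^ (k + 2) ∣ dt (1 + X * G) - e (r + s) := by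
  induction m with
  | zero =>
    refine ⟨Polynomial.C (r + s), Polynomial.C (r * s), T_C (add_mem hr hs),
      T_C (mul_mem hr hs), ?_, ?_⟩
    · rw [C_add, C_mul]
      have h1 : Polynomial.C r * X = X * Polynomial.C r := (X_mul_C r).symm
      have : (1 + X * Polynomial.C r) * (1 + X * Polynomial.C s)
        = 1 + X * (Polynomial.C r + Polynomial.C s)
          + X * (Polynomial.C r * X) * Polynomial.C s := by
        noncomm_ring
      rw [this, h1]
      noncomm_ring
    · rw [show dt (1 + X * Polynomial.C (r + s)) = e (r + s) from rfl, sub_self]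
      exact dvd_zero _
  | succ m ih =>
    obtain ⟨G, H, hG, hH, h1, h2⟩ := ih
    set w := H.coeff 0 with hw
    have hwR : w ∈ R := hH 0
    have hHd : H = Polynomial.C w + X * H.divX := by
      conv_lhs => rw [← divX_mul_X_add H]
      rw [X_mul, add_comm]
    refine ⟨G + X ^ (m + 1) * (Polynomial.C w) + X ^ (m + 2) * (G * Polynomial.C w),
      H.divX - G * Polynomial.C w, ?_, ?_, ?_, ?_⟩
    · exact T_add (T_add hG (T_X_pow (T_C hwR) _)) (T_X_pow (T_mul hG (T_C hwR)) _)
    · exact T_sub (T_divX hH) (T_mul hG (T_C hwR))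
    · rw [h1]
      conv_lhs => rw [hHd]
      have a1 : X * (X ^ (m + 1) * Polynomial.C w) = X ^ (m + 2) * Polynomial.C w := by
        rw [← mul_assoc, ← pow_succ']
      have a2 : X * (X ^ (m + 2) * (G * Polynomial.C w))
          = X ^ (m + 1 + 2) * (G * Polynomial.C w) := by
        rw [← mul_assoc, ← pow_succ']
      have a3 : X ^ (m + 2) * (X * H.divX) = X ^ (m + 1 + 2) * H.divX := by
        rw [← mul_assoc, ← pow_succ]
      rw [mul_add (X ^ (m + 2)), a3, mul_add X, mul_add X, a1, a2, mul_sub]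
      abel
    · have h3 : 1 + X * (G + X ^ (m + 1) * (Polynomial.C w) + X ^ (m + 2) * (G * Polynomial.C w))
          = (1 + X * G) * (1 + X ^ (m + 2) * Polynomial.C w) := by
        have h4 : G * X ^ (m + 2) = X ^ (m + 2) * G := X_pow_mul.symm
        have h5 : (1 + X * G) * (1 + X ^ (m + 2) * Polynomial.C w)
          = 1 + X * G + X ^ (m + 2) * Polynomial.C w
            + X * (G * X ^ (m + 2)) * Polynomial.C w := by
          noncomm_ring
        have a1 : X * (X ^ (m + 1) * Polynomial.C w) = X ^ (m + 2) * Polynomial.C w := by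
          rw [← mul_assoc, ← pow_succ']
        have a2 : X * (X ^ (m + 2) * (G * Polynomial.C w))
            = X ^ (m + 1 + 2) * (G * Polynomial.C w) := by
          rw [← mul_assoc, ← pow_succ']
        have a3 : X * (X ^ (m + 2) * G) * Polynomial.C w
            = X ^ (m + 1 + 2) * (G * Polynomial.C w) := by
          rw [← mul_assoc, ← pow_succ', mul_assoc]
        rw [h5, h4, mul_add X, mul_add X, a1, a2, a3]
        abel
      rw [h3, dt_mul, dt_expand]
      apply dvd_mul_sub h2
      exact expand_dvd (dvd_sub_one (e_coeff_zero w) (hk w hwR)) (by omega)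

/-- Additivity of the first coefficient that is not known to vanish. -/
lemma coeff_add_of {k : ℕ} (hk : ∀ w ∈ R, ∀ j, 1 ≤ j → j ≤ k → (e w).coeff j = 0)
    {r s : Matrix (Fin n) (Fin n) C} (hr : r ∈ R) (hs : s ∈ R) :
    (e (r + s)).coeff (k + 1) = (e r).coeff (k + 1) + (e s).coeff (k + 1) := by
  obtain ⟨G, H, -, -, h1, h2⟩ := factor hk hr hs k
  have h3 := dt_congr _ _ _ _ h1
  rw [dt_mul] at h3
  have h4 : (X : C[X]) ^ (k + 2) ∣ e r * e s - e (r + s) := by
    have h5 := dvd_add h3 h2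
    rw [sub_add_sub_cancel] at h5
    exact h5
  obtain ⟨P, hP⟩ := dvd_sub_one (e_coeff_zero r) (hk r hr)
  obtain ⟨Q, hQ⟩ := dvd_sub_one (e_coeff_zero s) (hk s hs)
  have h6 : (X : C[X]) ^ (k + 2) ∣ (e r + e s - 1) - e (r + s) := by
    have h7 : e r * e s = e r + e s - 1 + (e r - 1) * (e s - 1) := by ring
    have h8 : (X : C[X]) ^ (k + 2) ∣ (e r - 1) * (e s - 1) := by
      rw [hP, hQ]
      refine ⟨X ^ k * P * Q, ?_⟩
      ring
    have h9 := dvd_sub h4 h8
    have h10 : e r * e s - e (r + s) - (e r - 1) * (e s - 1)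
      = (e r + e s - 1) - e (r + s) := by ring
    rw [h10] at h9
    exact h9
  rw [X_pow_dvd_iff] at h6
  have h11 := h6 (k + 1) (by omega)
  rw [coeff_sub, coeff_sub, coeff_add, coeff_one, if_neg (by omega), sub_zero] at h11
  exact (sub_eq_zero.1 h11).symm

theorem coeff_zero_of
    (hR : ∀ r ∈ R, r ∈ AddSubgroup.closure {x | ∃ a ∈ R, ∃ b ∈ R, x = a * b - b * a})
    (k : ℕ) : ∀ w ∈ R, ∀ j, 1 ≤ j → j ≤ k → (e w).coeff j = 0 := by
  induction k with
  | zero =>
    intro w _ j h1 h2
    omega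
  | succ k ih =>
    intro w hw j h1 h2
    rcases Nat.lt_or_ge k j with hj | hj
    · obtain rfl : j = k + 1 := by omega
      have h0 : (e (0 : Matrix (Fin n) (Fin n) C)).coeff (k + 1) = 0 := by
        rw [e_zero, coeff_one, if_neg (by omega)]
      have hneg : ∀ x ∈ R, (e (-x)).coeff (k + 1) = -(e x).coeff (k + 1) := by
        intro x hx
        have h3 := coeff_add_of ih hx (neg_mem hx)
        rw [add_neg_cancel, h0] at h3
        exact (neg_eq_of_add_eq_zero_right h3.symm).symm
      have key : ∀ x ∈ AddSubgroup.closure {x | ∃ a ∈ R, ∃ b ∈ R, x = a * b - b * a},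
          x ∈ R ∧ (e x).coeff (k + 1) = 0 := by
        intro x hx
        induction hx using AddSubgroup.closure_induction with
        | mem x hx =>
          obtain ⟨a, ha, b, hb, rfl⟩ := hx
          refine ⟨sub_mem (mul_mem ha hb) (mul_mem hb ha), ?_⟩
          rw [sub_eq_add_neg, coeff_add_of ih (mul_mem ha hb) (neg_mem (mul_mem hb ha)),
            hneg _ (mul_mem hb ha), e_mul_comm a b, add_neg_cancel]
        | zero => exact ⟨zero_mem R, h0⟩
        | add x y _ _ hx hy =>
          refine ⟨add_mem hx.1 hy.1, ?_⟩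
          rw [coeff_add_of ih hx.1 hy.1, hx.2, hy.2, add_zero]
        | neg x _ hx =>
          refine ⟨neg_mem hx.1, ?_⟩
          rw [hneg x hx.1, hx.2, neg_zero]
      exact (key w (hR w hw)).2
    · exact ih w hw j h1 hj

theorem e_eq_one
    (hR : ∀ r ∈ R, r ∈ AddSubgroup.closure {x | ∃ a ∈ R, ∃ b ∈ R, x = a * b - b * a})
    {w : Matrix (Fin n) (Fin n) C} (hw : w ∈ R) : e w = 1 := by
  ext j
  rcases Nat.eq_zero_or_pos j with rfl | hj
  · rw [e_coeff_zero, coeff_one_zero]
  · rw [coeff_zero_of hR j w hw j hj le_rfl, coeff_one, if_neg (by omega)]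

theorem charpoly_eq
    (hR : ∀ r ∈ R, r ∈ AddSubgroup.closure {x | ∃ a ∈ R, ∃ b ∈ R, x = a * b - b * a})
    {w : Matrix (Fin n) (Fin n) C} (hw : w ∈ R) : w.charpoly = X ^ n := by
  nontriviality C
  have h1 : w.charpolyRev = 1 := by
    have h2 := e_eq_one hR (neg_mem hw)
    rw [e_eq] at h2
    rw [Matrix.charpolyRev, ← h2]
    congr 1
    ext a b
    simp [sub_eq_add_neg]
  rw [← Matrix.reverse_charpoly] at h1
  have hd : w.charpoly.natDegree = n := by
    rw [Matrix.charpoly_natDegree_eq_dim, Fintype.card_fin]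
  ext j
  rw [coeff_X_pow]
  rcases Nat.lt_or_ge n j with hj | hj
  · rw [if_neg (by omega), coeff_eq_zero_of_natDegree_lt (by rw [hd]; exact hj)]
  · have h3 : w.charpoly.reverse.coeff (n - j) = w.charpoly.coeff j := by
      rw [coeff_reverse, hd, revAt_le (by omega)]
      congr 1
      omega
    rw [← h3, h1, coeff_one]
    split_ifs <;> first | rfl | omega

theorem pow_eq_zero
    (hR : ∀ r ∈ R, r ∈ AddSubgroup.closure {x | ∃ a ∈ R, ∃ b ∈ R, x = a * b - b * a})
    {w : Matrix (Fin n) (Fin n) C} (hw : w ∈ R) : w ^ n = 0 := by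
  have h := Matrix.aeval_self_charpoly w
  rw [charpoly_eq hR hw] at h
  simpa using h

end main

end Pool.Agent.TH537.LV
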