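import Mathlib

/-!
# Nil rings of index at most three equal to their derived Lie ring
-/

namespace Pool.Agent.TH537.LV

variable {R : Type*} [NonUnitalRing R]

lemma ind (hR : AddSubgroup.closure {x : R | ∃ a b : R, x = a * b - b * a} = ⊤)
    (P : AddSubgroup R) (φ : R →+ R) (h : ∀ a b, φ (a * b - b * a) ∈ P) (x : R) : φ x ∈ P := by
  have h1 : AddSubgroup.closure {x : R | ∃ a b : R, x = a * b - b * a} ≤ P.comap φ := by
    rw [AddSubgroup.closure_le]
    rintro _ ⟨a, b, rfl⟩
    exact h a b
  rw [hR] at h1
  exact h1 (AddSubgroup.mem_top x)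

lemma ind_id (hR : AddSubgroup.closure {x : R | ∃ a b : R, x = a * b - b * a} = ⊤)
    (P : AddSubgroup R) (h : ∀ a b, a * b - b * a ∈ P) (x : R) : x ∈ P :=
  ind hR P (AddMonoidHom.id R) h x

/-- `R = [[[R,R],[R,R]],R]`. -/
lemma ind_five (hR : AddSubgroup.closure {x : R | ∃ a b : R, x = a * b - b * a} = ⊤)
    (P : AddSubgroup R)
    (h : ∀ a b c d e : R, ((a * b - b * a) * (c * d - d * c) - (c * d - d * c) * (a * b - b * a))
      * e - e * ((a * b - b * a) * (c * d - d * c) - (c * d - d * c) * (a * b - b * a)) ∈ P)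
    (x : R) : x ∈ P := by
  have h3 : ∀ y c d e : R, (y * (c * d - d * c) - (c * d - d * c) * y)
      * e - e * (y * (c * d - d * c) - (c * d - d * c) * y) ∈ P := by
    intro y c d e
    exact ind hR P (AddMonoidHom.mk' (fun y => (y * (c * d - d * c) - (c * d - d * c) * y)
      * e - e * (y * (c * d - d * c) - (c * d - d * c) * y))
      (by intro p q; simp only [mul_add, add_mul, mul_sub, sub_mul]; abel))
      (fun a b => h a b c d e) y
  have h2 : ∀ y z e : R, (y * z - z * y) * e - e * (y * z - z * y) ∈ P := by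
    intro y z e
    exact ind hR P (AddMonoidHom.mk' (fun z => (y * z - z * y) * e - e * (y * z - z * y))
      (by intro p q; simp only [mul_add, add_mul, mul_sub, sub_mul]; abel))
      (fun c d => h3 y c d e) z
  apply ind_id hR P
  intro a e
  exact ind hR P (AddMonoidHom.mk' (fun a => a * e - e * a)
      (by intro p q; simp only [mul_add, add_mul]; abel))
      (fun y z => h2 y z e) a

/-- `R = [R,[R,[R,R]]]`. -/
lemma ind_four (hR : AddSubgroup.closure {x : R | ∃ a b : R, x = a * b - b * a} = ⊤)
    (P : AddSubgroup R)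
    (h : ∀ w x y z : R, w * (x * (y * z - z * y) - (y * z - z * y) * x)
      - (x * (y * z - z * y) - (y * z - z * y) * x) * w ∈ P)
    (x : R) : x ∈ P := by
  have h2 : ∀ w x y : R, w * (x * y - y * x) - (x * y - y * x) * w ∈ P := by
    intro w x y
    exact ind hR P (AddMonoidHom.mk' (fun y => w * (x * y - y * x) - (x * y - y * x) * w)
      (by intro p q; simp only [mul_add, add_mul, mul_sub, sub_mul]; abel))
      (fun y z => h w x y z) y
  apply ind_id hR P
  intro w b
  exact ind hR P (AddMonoidHom.mk' (fun b => w * b - b * w)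
      (by intro p q; simp only [mul_add, add_mul]; abel))
      (fun x y => h2 w x y) b

/-- `R = R³`. -/
lemma ind_three (hR : AddSubgroup.closure {x : R | ∃ a b : R, x = a * b - b * a} = ⊤)
    (P : AddSubgroup R) (h : ∀ a b c : R, a * b * c ∈ P) (x : R) : x ∈ P := by
  apply ind_id hR P
  intro w b
  refine ind hR P (AddMonoidHom.mk' (fun b => w * b - b * w)
      (by intro p q; simp only [mul_add, add_mul]; abel)) (fun x y => ?_) b
  change w * (x * y - y * x) - (x * y - y * x) * w ∈ P
  have : w * (x * y - y * x) - (x * y - y * x) * w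
      = w * x * y - w * y * x - x * y * w + y * x * w := by
    simp only [mul_sub, sub_mul, mul_assoc]; abel
  rw [this]
  exact add_mem (sub_mem (sub_mem (h _ _ _) (h _ _ _)) (h _ _ _)) (h _ _ _)

/-- A ring equal to its derived Lie ring in which every square is zero is zero. -/
theorem zero_of_sq (hR : AddSubgroup.closure {x : R | ∃ a b : R, x = a * b - b * a} = ⊤)
    (h : ∀ x : R, x * x = 0) (x : R) : x = 0 := by
  have hc : ∀ x y : R, x * y = -(y * x) := by
    intro x y
    have h1 := h (x + y)
    rw [add_mul, mul_add, mul_add, h x, h y, zero_add, add_zero] at h1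
    exact eq_neg_of_add_eq_zero_left h1
  have h2 : ∀ x y z : R, (2 : ℤ) • (x * y * z) = 0 := by
    intro x y z
    have e1 : x * y * z = -(y * x * z) := by rw [hc x y, neg_mul]
    have e2 : y * x * z = -(y * z * x) := by rw [mul_assoc, hc x z, mul_neg, mul_assoc]
    have e3 : x * y * z = -(y * z * x) := by rw [mul_assoc, hc x (y * z)]
    have e4 : x * y * z = -(x * y * z) := by
      conv_lhs => rw [e1, e2, neg_neg]
      rw [e3, neg_neg]
    rw [two_smul]
    nth_rewrite 1 [e4]
    exact neg_add_cancel _
  have h3 : x ∈ (zsmulAddGroupHom (2 : ℤ) : R →+ R).ker := by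
    apply ind_three hR
    intro a b c
    rw [AddMonoidHom.mem_ker]
    exact h2 a b c
  have hall : ∀ x : R, (2 : ℤ) • x = 0 := by
    intro x
    have h3 : x ∈ (zsmulAddGroupHom (2 : ℤ) : R →+ R).ker := by
      apply ind_three hR
      intro a b c
      rw [AddMonoidHom.mem_ker]
      exact h2 a b c
    exact h3
  have h4 : x ∈ (⊥ : AddSubgroup R) := by
    apply ind_id hR
    intro a b
    rw [AddSubgroup.mem_bot]
    have := hall (a * b)
    rw [two_smul] at this
    rw [hc b a, sub_neg_eq_add]
    exact this
  exact h4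

end Pool.Agent.TH537.LV
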