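import Pool.Agent.TH537.LV.B

/-!
# Nil rings of index three equal to their derived Lie ring
-/

namespace Pool.Agent.TH537.LV

variable {R : Type*} [NonUnitalRing R]

/-- The symmetric function. -/
def sy (x y z : R) : R := x * y * z + x * z * y + y * x * z + y * z * x + z * x * y + z * y * x

lemma cert_identity (a b c d e : R) :
    ((a * b - b * a) * (c * d - d * c) - (c * d - d * c) * (a * b - b * a)) * e
      - e * ((a * b - b * a) * (c * d - d * c) - (c * d - d * c) * (a * b - b * a))
    = sy (a * b) c d * e
      + sy a (b * c) (e * d)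
      - sy a (b * c * e) d
      - sy a c (e * d * b)
      + sy a (c * e) (d * b)
      + sy (b * a) c d * e
      - sy b (c * a) e * d
      + sy b c e * (a * d)
      + (c * a) * sy b d e
      - c * sy (a * d) b e
      + e * sy (a * b) c d
      + e * sy (b * a) c d
      + (2 : ℤ) • (-(e * a * b * c * d) - c * d * a * b * e - a * b * d * c * e - e * d * c * a * b
        - b * a * c * d * e - e * c * d * b * a - e * b * a * d * c - d * c * b * a * e
        - c * a * b * d * e - e * d * a * b * c - d * b * a * c * e - e * c * b * a * d) := by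
  simp only [sy, mul_add, add_mul, mul_sub, sub_mul, mul_assoc, smul_sub, smul_neg]
  abel

lemma sy_eq_zero (h : ∀ x : R, x * x * x = 0) (x y z : R) : sy x y z = 0 := by
  have e1 : sy x y z = (x + y + z) * (x + y + z) * (x + y + z) - (x + y) * (x + y) * (x + y)
      - (x + z) * (x + z) * (x + z) - (y + z) * (y + z) * (y + z) + x * x * x + y * y * y
      + z * z * z := by
    simp only [sy, mul_add, add_mul, mul_assoc]
    abel
  rw [e1]
  simp only [h]
  simp

/-- The linearized nil identity. -/
def aa (x y : R) : R := x * x * y + x * y * x + y * x * x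

lemma two_aa (h : ∀ x : R, x * x * x = 0) (x y : R) : (2 : ℤ) • aa x y = 0 := by
  have e1 : (2 : ℤ) • aa x y = (x + y) * (x + y) * (x + y) - (x - y) * (x - y) * (x - y)
      - y * y * y - y * y * y := by
    simp only [aa, mul_add, add_mul, mul_sub, sub_mul, mul_assoc, two_smul]
    abel
  rw [e1]
  simp only [h]
  simp

/-- The commutator. -/
def br (x y : R) : R := x * y - y * x

/-- The linearized Engel expression. -/
def FF (p q y : R) : R := br p (br q y) + br q (br p y)

/-- A symmetric expression. -/
def GG (p q y : R) : R := -(p * y * q) - q * y * p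

lemma FF_eq (haa : ∀ x y : R, aa x y = 0) (p q y : R) : FF p q y = (3 : ℤ) • GG p q y := by
  have e1 : FF p q y = aa (p + q) y - aa p y - aa q y + (3 : ℤ) • GG p q y := by
    simp only [FF, GG, br, aa, mul_add, add_mul, mul_sub, sub_mul, mul_assoc, smul_sub, smul_neg]
    abel
  rw [e1, haa, haa, haa]
  simp

lemma br_smul (x y : R) (k : ℤ) : br x (k • y) = k • br x y := by
  simp only [br, mul_smul_comm, smul_mul_assoc, smul_sub]

lemma engel_identity (w x y z : R) : br w (br x (br y z)) =
    FF w x (br y z) + FF (br w x) y z + br y (FF z w x) - FF y w (br z x)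
      - br w (FF y x z) := by
  simp only [FF, br, mul_add, add_mul, mul_sub, sub_mul, mul_assoc]
  abel

lemma cube_identity (x y z : R) : (3 : ℤ) • (x * x * z * (y * y)) =
    aa x z * (y * y) + aa x (z * y) * y + aa x (z * y * y) - x * z * aa y x
      - z * aa y (x * x) := by
  simp only [aa, mul_add, add_mul, mul_assoc]
  abel

/-- An additive subgroup closed under multiplications that contains the squares is everything. -/
lemma sq_ideal (hR : AddSubgroup.closure {x : R | ∃ a b : R, x = a * b - b * a} = ⊤)
    (h2 : ∀ x : R, ∃ y : R, x = (2 : ℤ) • y) (P : AddSubgroup R)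
    (hl : ∀ a : R, ∀ x ∈ P, a * x ∈ P) (hr : ∀ a : R, ∀ x ∈ P, x * a ∈ P)
    (hs : ∀ a : R, a * a ∈ P) (x : R) : x ∈ P := by
  have hc : ∀ x y : R, x * y + y * x ∈ P := by
    intro x y
    have e1 : x * y + y * x = (x + y) * (x + y) - x * x - y * y := by
      simp only [mul_add, add_mul]
      abel
    rw [e1]
    exact sub_mem (sub_mem (hs _) (hs _)) (hs _)
  apply ind_three hR
  intro a b c
  obtain ⟨c', rfl⟩ := h2 c
  have e2 : a * b * ((2 : ℤ) • c') = (a * b + b * a) * c' - b * (a * c' + c' * a)
      + (a * (b * c') + (b * c') * a) := by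
    simp only [mul_add, add_mul, mul_assoc, two_smul]
    abel
  rw [e2]
  exact add_mem (sub_mem (hr _ _ (hc _ _)) (hl _ _ (hc _ _))) (hc _ _)

/-- A ring equal to its derived Lie ring in which every cube is zero is zero. -/
theorem zero_of_cube (hR : AddSubgroup.closure {x : R | ∃ a b : R, x = a * b - b * a} = ⊤)
    (h : ∀ x : R, x * x * x = 0) (x : R) : x = 0 := by
  have hsy := sy_eq_zero h
  have h2 : ∀ x : R, ∃ y : R, x = (2 : ℤ) • y := by
    intro x
    have hx : x ∈ (zsmulAddGroupHom (2 : ℤ) : R →+ R).range := by
      apply ind_five hR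
      intro a b c d e
      rw [cert_identity]
      simp only [hsy, zero_mul, mul_zero, add_zero, sub_zero, zero_add]
      exact ⟨_, rfl⟩
    obtain ⟨y, hy⟩ := hx
    exact ⟨y, hy.symm⟩
  have haa : ∀ x y : R, aa x y = 0 := by
    intro x y
    obtain ⟨y', rfl⟩ := h2 y
    have e1 : aa x ((2 : ℤ) • y') = (2 : ℤ) • aa x y' := by
      simp only [aa, mul_smul_comm, smul_mul_assoc, smul_add]
    rw [e1, two_aa h]
  have h3 : ∀ x : R, ∃ y : R, x = (3 : ℤ) • y := by
    intro x
    have hx : x ∈ (zsmulAddGroupHom (3 : ℤ) : R →+ R).range := by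
      apply ind_four hR
      intro w x y z
      have e1 := engel_identity w x y z
      simp only [FF_eq haa, br_smul, ← smul_add, ← smul_sub] at e1
      exact ⟨_, e1.symm⟩
    obtain ⟨y, hy⟩ := hx
    exact ⟨y, hy.symm⟩
  have h4 : ∀ x z y : R, x * x * z * (y * y) = 0 := by
    intro x z y
    obtain ⟨z', rfl⟩ := h3 z
    have e1 : x * x * ((3 : ℤ) • z') * (y * y) = (3 : ℤ) • (x * x * z' * (y * y)) := by
      simp only [mul_smul_comm, smul_mul_assoc]
    rw [e1, cube_identity]
    simp [haa]
  let P1 : AddSubgroup R :=
    { carrier := {a | ∀ r c : R, a * r * (c * c) = 0}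
      zero_mem' := by intro r c; simp
      add_mem' := by
        intro a b ha hb r c
        rw [add_mul, add_mul, ha r c, hb r c, add_zero]
      neg_mem' := by
        intro a ha r c
        rw [neg_mul, neg_mul, ha r c, neg_zero] }
  have h5 : ∀ a r c : R, a * r * (c * c) = 0 := by
    intro a
    have : a ∈ P1 := by
      apply sq_ideal hR h2 P1
      · intro u x hx r c
        rw [mul_assoc, mul_assoc, ← mul_assoc x, hx r c, mul_zero]
      · intro u x hx r c
        rw [mul_assoc x, hx (u * r) c]
      · intro u r c
        exact h4 u r c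
    exact this
  let P2 : AddSubgroup R :=
    { carrier := {c | ∀ a r : R, a * r * c = 0}
      zero_mem' := by intro r c; simp
      add_mem' := by
        intro a b ha hb r c
        rw [mul_add, ha r c, hb r c, add_zero]
      neg_mem' := by
        intro a ha r c
        rw [mul_neg, ha r c, neg_zero] }
  have h6 : ∀ a r c : R, a * r * c = 0 := by
    intro a r c
    have : c ∈ P2 := by
      apply sq_ideal hR h2 P2
      · intro u x hx a r
        rw [← mul_assoc, mul_assoc a, hx a (r * u)]
      · intro u x hx a r
        rw [← mul_assoc, hx a r, zero_mul]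
      · intro u a r
        exact h5 a r u
    exact this a r
  have h7 : x ∈ (⊥ : AddSubgroup R) := by
    apply ind_three hR
    intro a b c
    rw [AddSubgroup.mem_bot]
    exact h6 a b c
  exact h7

end Pool.Agent.TH537.LV
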