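import Mathlib

/-!
# An integral form of the theorem of Nagata and Higman for rings `S = S³`
-/

open scoped Nat

namespace Pool.Agent.TH537.LV

variable {A : Type*} [Ring A]

/-- Expansion of `(x + t y)^N` to first order. -/
lemma exists_expansion (x y : A) (N : ℕ) : ∃ c : ℕ → A, (∀ t : ℤ, (x + t • y) ^ N =
    ∑ k ∈ Finset.range (N + 1), t ^ k • c k) ∧ c 0 = x ^ N ∧
    c 1 = ∑ i ∈ Finset.range N, x ^ i * y * x ^ (N - 1 - i) := by
  induction N with
  | zero =>
    refine ⟨fun k => if k = 0 then 1 else 0, fun t => ?_, ?_, ?_⟩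
    · simp
    · simp
    · simp
  | succ N ih =>
    obtain ⟨c, h1, h2, h3⟩ := ih
    let c' : ℕ → A := fun k => if k ≤ N then c k else 0
    refine ⟨fun k => x * c' k + (if k = 0 then 0 else y * c' (k - 1)), fun t => ?_, ?_, ?_⟩
    · have e1 : (x + t • y) ^ N = ∑ k ∈ Finset.range (N + 1), t ^ k • c' k := by
        rw [h1]
        apply Finset.sum_congr rfl
        intro k hk
        rw [Finset.mem_range] at hk
        simp only [c', if_pos (Nat.lt_succ_iff.1 hk)]
      have e2 : c' (N + 1) = 0 := if_neg (by omega)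
      rw [pow_succ', e1, add_mul]
      simp only [smul_add, Finset.sum_add_distrib]
      congr 1
      · rw [Finset.sum_range_succ _ (N + 1), e2, mul_zero, smul_zero, add_zero, Finset.mul_sum]
        apply Finset.sum_congr rfl
        intro k _
        rw [mul_smul_comm]
      · rw [Finset.sum_range_succ' _ (N + 1)]
        simp only [Nat.add_eq_zero_iff, one_ne_zero, and_false, if_false, Nat.add_sub_cancel,
          if_true, smul_zero, add_zero]
        rw [Finset.mul_sum]
        apply Finset.sum_congr rfl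
        intro k _
        rw [mul_smul_comm, smul_mul_assoc, smul_smul, pow_succ]
    · simp only [c', if_true, add_zero, Nat.zero_le, h2]
      rw [pow_succ']
    · by_cases hN : N = 0
      · subst hN
        simp [c', h2]
      · have h4 : c' 1 = c 1 := if_pos (by omega)
        have h5 : c' (1 - 1) = x ^ N := by
          simp only [c', Nat.sub_self, Nat.zero_le, if_true, h2]
        simp only [one_ne_zero, if_false]
        rw [h4, h5, h3, Finset.sum_range_succ', Finset.mul_sum]
        simp only [pow_zero, one_mul]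
        congr 1
        apply Finset.sum_congr rfl
        intro i hi
        rw [pow_succ', show N + 1 - 1 - (i + 1) = N - 1 - i by omega]
        simp only [mul_assoc]

/-- The linearization of `x^N ∈ J`. -/
lemma linearize (S : NonUnitalSubring A) (J : AddSubgroup A) {N : ℕ} (h : ∀ x ∈ S, x ^ N ∈ J)
    {x y : A} (hx : x ∈ S) (hy : y ∈ S) (hN : 1 ≤ N) :
    N.superFactorial • ∑ i ∈ Finset.range N, x ^ i * y * x ^ (N - 1 - i) ∈ J := by
  obtain ⟨c, h1, -, h3⟩ := exists_expansion x y N
  rw [← h3]
  let V : Matrix (Fin (N + 1)) (Fin (N + 1)) ℤ :=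
    Matrix.vandermonde (fun i : Fin (N + 1) => (i : ℤ))
  have hV : V.det = (N.superFactorial : ℤ) := Matrix.det_vandermonde_id_eq_superFactorial N
  have hi : ∀ i : Fin (N + 1), ∑ j : Fin (N + 1), V i j • c j ∈ J := by
    intro i
    have h4 : (x + (i : ℤ) • y) ^ N ∈ J := h _ (S.add_mem hx (S.toAddSubgroup.zsmul_mem hy _))
    rw [h1, Finset.sum_range] at h4
    exact h4
  let k : Fin (N + 1) := ⟨1, by omega⟩
  have h5 : ∑ i, (V.adjugate k i) • ∑ j : Fin (N + 1), V i j • c j ∈ J :=
    sum_mem fun i _ => J.zsmul_mem (hi i) _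
  have h6 : ∑ i, (V.adjugate k i) • ∑ j : Fin (N + 1), V i j • c j
      = ∑ j : Fin (N + 1), (V.adjugate * V) k j • c j := by
    simp only [Finset.smul_sum, smul_smul, Matrix.mul_apply, Finset.sum_smul]
    exact Finset.sum_comm
  rw [h6, Matrix.adjugate_mul, hV] at h5
  have h7 : ∑ j : Fin (N + 1), (((N.superFactorial : ℤ) • (1 : Matrix (Fin (N + 1))
      (Fin (N + 1)) ℤ)) k j) • c j = N.superFactorial • c 1 := by
    rw [Finset.sum_eq_single k]
    · rw [Matrix.smul_apply, Matrix.one_apply_eq, smul_eq_mul, mul_one, natCast_zsmul]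
    · intro b _ hb
      rw [Matrix.smul_apply, Matrix.one_apply_ne hb.symm, smul_zero, zero_smul]
    · intro h8
      exact absurd (Finset.mem_univ _) h8
  rw [h7] at h5
  exact h5

/-- Powers of elements of a non-unital subring. -/
lemma pow_mem_of {S : NonUnitalSubring A} {x : A} (hx : x ∈ S) (n : ℕ) : x ^ (n + 1) ∈ S := by
  induction n with
  | zero => rwa [zero_add, pow_one]
  | succ n ih => rw [pow_succ]; exact S.mul_mem ih hx

/-- Higman's identity. -/
lemma higman {S : NonUnitalSubring A} {J : AddSubgroup A}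
    (hl : ∀ x ∈ S, ∀ y ∈ J, x * y ∈ J) (hr : ∀ x ∈ J, ∀ y ∈ S, x * y ∈ J) {n : ℕ}
    (h : ∀ x ∈ S, x ^ (n + 1) ∈ J) {x y z : A} (hx : x ∈ S) (hy : y ∈ S) (hz : z ∈ S) :
    ((n + 1).superFactorial * (n + 1)) • (x ^ n * z * y ^ n) ∈ J := by
  have hlin : ∀ {u v : A}, u ∈ S → v ∈ S →
      (n + 1).superFactorial • ∑ i ∈ Finset.range (n + 1), u ^ (n - i) * v * u ^ i ∈ J := by
    intro u v hu hv
    have h1 := linearize S J h hu hv (by omega)
    rw [← Finset.sum_range_reflect] at h1
    convert h1 using 2
    apply Finset.sum_congr rfl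
    intro i hi
    rw [Finset.mem_range] at hi
    rw [show n + 1 - 1 - i = n - i by omega, show n + 1 - 1 - (n - i) = i by omega]
  have hlin' : ∀ {u v : A}, u ∈ S → v ∈ S →
      (n + 1).superFactorial • ∑ j ∈ Finset.range (n + 1), u ^ j * v * u ^ (n - j) ∈ J := by
    intro u v hu hv
    have h1 := linearize S J h hu hv (by omega)
    simpa only [Nat.add_sub_cancel] using h1
  have hpr : ∀ {u v : A}, u ∈ J → v ∈ S → ∀ k : ℕ, u * v ^ k ∈ J := by
    intro u v hu hv k
    rcases k with _ | k
    · rwa [pow_zero, mul_one]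
    · exact hr _ hu _ (pow_mem_of hv k)
  have hpl : ∀ {u v : A}, u ∈ S → v ∈ J → ∀ k : ℕ, u ^ k * v ∈ J := by
    intro u v hu hv k
    rcases k with _ | k
    · rwa [pow_zero, one_mul]
    · exact hl _ (pow_mem_of hu k) _ hv
  -- the double sum
  have hS : (n + 1).superFactorial • ∑ j ∈ Finset.range (n + 1), ∑ i ∈ Finset.range (n + 1),
      x ^ (n - i) * (z * y ^ j) * x ^ i * y ^ (n - j) ∈ J := by
    rw [Finset.smul_sum]
    apply sum_mem
    intro j _
    rw [← Finset.sum_mul, ← smul_mul_assoc]
    apply hpr _ hy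
    apply hlin hx
    rcases j with _ | j
    · rwa [pow_zero, mul_one]
    · exact S.mul_mem hz (pow_mem_of hy j)
  rw [Finset.sum_comm, Finset.sum_range_succ' _ n, smul_add] at hS
  have h1 : (n + 1).superFactorial • ∑ i ∈ Finset.range n, ∑ j ∈ Finset.range (n + 1),
      x ^ (n - (i + 1)) * (z * y ^ j) * x ^ (i + 1) * y ^ (n - j) ∈ J := by
    rw [Finset.smul_sum]
    apply sum_mem
    intro i _
    have e : ∑ j ∈ Finset.range (n + 1), x ^ (n - (i + 1)) * (z * y ^ j) * x ^ (i + 1) *
        y ^ (n - j) = x ^ (n - (i + 1)) * (z * ∑ j ∈ Finset.range (n + 1),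
          y ^ j * x ^ (i + 1) * y ^ (n - j)) := by
      rw [Finset.mul_sum, Finset.mul_sum]
      apply Finset.sum_congr rfl
      intro j _
      simp only [mul_assoc]
    rw [e, ← mul_smul_comm, ← mul_smul_comm]
    exact hpl hx (hl _ hz _ (hlin' hy (pow_mem_of hx i))) _
  have h2 := (AddSubgroup.add_mem_cancel_left J h1).1 hS
  have h3 : ∑ j ∈ Finset.range (n + 1), x ^ (n - 0) * (z * y ^ j) * x ^ 0 * y ^ (n - j) =
      (n + 1) • (x ^ n * z * y ^ n) := by
    have h4 : ∀ j ∈ Finset.range (n + 1), x ^ (n - 0) * (z * y ^ j) * x ^ 0 * y ^ (n - j) =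
        x ^ n * z * y ^ n := by
      intro j hj
      rw [Finset.mem_range] at hj
      rw [Nat.sub_zero, pow_zero, mul_one, ← mul_assoc, mul_assoc _ (y ^ j), ← pow_add,
        show j + (n - j) = n by omega]
    rw [Finset.sum_congr rfl h4, Finset.sum_const, Finset.card_range]
  rw [h3, smul_smul] at h2
  exact h2

/-- The constant. -/
def KK : ℕ → ℕ
  | 0 => 1
  | n + 1 => (n + 1).superFactorial * (n + 1) * KK n * KK n

theorem nil_main (S : NonUnitalSubring A)
    (hS3 : ∀ J : AddSubgroup A, (∀ a ∈ S, ∀ b ∈ S, ∀ c ∈ S, a * b * c ∈ J) → ∀ r ∈ S, r ∈ J)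
    (n : ℕ) : ∀ J : AddSubgroup A, (∀ x ∈ S, ∀ y ∈ J, x * y ∈ J) →
      (∀ x ∈ J, ∀ y ∈ S, x * y ∈ J) → (∀ x ∈ S, x ^ n ∈ J) → ∀ r ∈ S, KK n • r ∈ J := by
  induction n with
  | zero =>
    intro J hl _ h r hrS
    have h1 := hl r hrS _ (h r hrS)
    rw [pow_zero, mul_one] at h1
    rw [KK, one_smul]
    exact h1
  | succ n ih =>
    intro J hl hr h
    set q := (n + 1).superFactorial * (n + 1) with hq
    let P1 : AddSubgroup A :=
      { carrier := {a | ∀ r ∈ S, ∀ y ∈ S, q • (a * r * y ^ n) ∈ J}
        zero_mem' := by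
          intro r _ y _
          rw [zero_mul, zero_mul, smul_zero]
          exact J.zero_mem
        add_mem' := by
          intro a b ha hb r hr' y hy
          rw [add_mul, add_mul, smul_add]
          exact J.add_mem (ha r hr' y hy) (hb r hr' y hy)
        neg_mem' := by
          intro a ha r hr' y hy
          rw [neg_mul, neg_mul, smul_neg]
          exact J.neg_mem (ha r hr' y hy) }
    have h1 : ∀ a ∈ S, KK n • a ∈ P1 := by
      apply ih P1
      · intro u hu a ha r hr' y hy
        have e : q • (u * a * r * y ^ n) = u * (q • (a * r * y ^ n)) := by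
          rw [mul_smul_comm]
          simp only [mul_assoc]
        rw [e]
        exact hl _ hu _ (ha r hr' y hy)
      · intro a ha u hu r hr' y hy
        rw [mul_assoc a u r]
        exact ha (u * r) (S.mul_mem hu hr') y hy
      · intro x hx r hr' y hy
        exact higman hl hr h hx hy hr'
    let P2 : AddSubgroup A :=
      { carrier := {c | ∀ a ∈ S, ∀ r ∈ S, (q * KK n) • (a * r * c) ∈ J}
        zero_mem' := by
          intro r _ y _
          rw [mul_zero, smul_zero]
          exact J.zero_mem
        add_mem' := by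
          intro c d hc hd a ha r hr'
          rw [mul_add, smul_add]
          exact J.add_mem (hc a ha r hr') (hd a ha r hr')
        neg_mem' := by
          intro c hc a ha r hr'
          rw [mul_neg, smul_neg]
          exact J.neg_mem (hc a ha r hr') }
    have h2 : ∀ c ∈ S, KK n • c ∈ P2 := by
      apply ih P2
      · intro u hu c hc a ha r hr'
        have e : a * r * (u * c) = a * (r * u) * c := by simp only [mul_assoc]
        rw [e]
        exact hc a ha (r * u) (S.mul_mem hr' hu)
      · intro c hc u hu a ha r hr'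
        have e : (q * KK n) • (a * r * (c * u)) = ((q * KK n) • (a * r * c)) * u := by
          rw [smul_mul_assoc]
          simp only [mul_assoc]
        rw [e]
        exact hr _ (hc a ha r hr') _ hu
      · intro y hy a ha r hr'
        have h3 := h1 a ha r hr' y hy
        have e : q • (KK n • a * r * y ^ n) = (q * KK n) • (a * r * y ^ n) := by
          rw [smul_mul_assoc, smul_mul_assoc, smul_smul]
        rw [e] at h3
        exact h3
    let J' : AddSubgroup A := J.comap (nsmulAddMonoidHom (KK (n + 1)))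
    intro r hrS
    have h4 : r ∈ J' := by
      apply hS3 J' _ r hrS
      intro a ha b hb c hc
      have h5 := h2 c hc a ha b hb
      have e : (q * KK n) • (a * b * (KK n • c)) = KK (n + 1) • (a * b * c) := by
        rw [mul_smul_comm, smul_smul, KK, ← hq]
      rw [e] at h5
      exact h5
    exact h4

lemma superFactorial_dvd (n : ℕ) : n.superFactorial ∣ n ! ^ n := by
  induction n with
  | zero => simp
  | succ n ih =>
    rw [Nat.superFactorial_succ, pow_succ']
    apply mul_dvd_mul dvd_rfl
    exact ih.trans (pow_dvd_pow_of_dvd (Nat.factorial_dvd_factorial (Nat.le_succ n)) n)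

lemma KK_dvd (n : ℕ) : ∃ k : ℕ, KK n ∣ n ! ^ k := by
  induction n with
  | zero => exact ⟨0, by simp [KK]⟩
  | succ n ih =>
    obtain ⟨k, hk⟩ := ih
    have h1 : KK n ∣ (n + 1)! ^ k :=
      hk.trans (pow_dvd_pow_of_dvd (Nat.factorial_dvd_factorial (Nat.le_succ n)) k)
    refine ⟨(n + 1) + 1 + k + k, ?_⟩
    rw [KK, pow_add, pow_add, pow_add, pow_one]
    exact mul_dvd_mul (mul_dvd_mul (mul_dvd_mul (superFactorial_dvd (n + 1))
      (Nat.dvd_factorial (Nat.succ_pos n) le_rfl)) h1) h1

end Pool.Agent.TH537.LV
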