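import Pool.Agent.TH537.LV.A
import Pool.Agent.TH537.LV.C
import Pool.Agent.TH537.LV.E

/-!
# Rings of matrices equal to their derived Lie ring: the main statement
-/

open Polynomial
open scoped Nat

universe u v

namespace Pool.Agent.TH537.LV

variable {R : Type u} [NonUnitalRing R]

lemma range_closure {A : Type v} [Ring A]
    (hR : AddSubgroup.closure {x : R | ∃ a b : R, x = a * b - b * a} = ⊤) (f : R →ₙ+* A) :
    ∀ r ∈ NonUnitalRingHom.range f, r ∈ AddSubgroup.closure
      {x | ∃ a ∈ NonUnitalRingHom.range f, ∃ b ∈ NonUnitalRingHom.range f,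
        x = a * b - b * a} := by
  rintro _ ⟨x, rfl⟩
  have h := ind_id hR ((AddSubgroup.closure
      {x | ∃ a ∈ NonUnitalRingHom.range f, ∃ b ∈ NonUnitalRingHom.range f,
        x = a * b - b * a}).comap (f : R →+ A)) (fun a b => by
    rw [AddSubgroup.mem_comap]
    apply AddSubgroup.subset_closure
    exact ⟨f a, ⟨a, rfl⟩, f b, ⟨b, rfl⟩, by simp⟩) x
  exact h

/-- A ring `R = [R,R]` that maps injectively to a ring in which the `n`-th powers of its elements
vanish is killed by `KK n`. -/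
theorem torsion_of_nil {A : Type v} [Ring A]
    (hR : AddSubgroup.closure {x : R | ∃ a b : R, x = a * b - b * a} = ⊤) (f : R →ₙ+* A)
    (hf : Function.Injective f) {n : ℕ} (h : ∀ x : R, f x ^ n = 0) (r : R) : KK n • r = 0 := by
  apply hf
  rw [map_nsmul, map_zero]
  have h1 := nil_main (NonUnitalRingHom.range f) (fun J hJ r hr => by
    obtain ⟨x, rfl⟩ := hr
    have h2 := ind_three hR (J.comap (f : R →+ A)) (fun a b c => by
      rw [AddSubgroup.mem_comap]
      change f (a * b * c) ∈ J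
      rw [map_mul, map_mul]
      exact hJ _ ⟨a, rfl⟩ _ ⟨b, rfl⟩ _ ⟨c, rfl⟩) x
    exact h2) n ⊥ (fun x _ y hy => by
      rw [AddSubgroup.mem_bot] at hy ⊢
      rw [hy, mul_zero])
    (fun x hx y _ => by
      rw [AddSubgroup.mem_bot] at hx ⊢
      rw [hx, zero_mul])
    (fun x hx => by
      obtain ⟨y, rfl⟩ := hx
      rw [AddSubgroup.mem_bot]
      exact h y) (f r) ⟨r, rfl⟩
  rwa [AddSubgroup.mem_bot] at h1

/-- The case `n ≤ 3`. -/
theorem zero_of_nil {A : Type v} [Ring A]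
    (hR : AddSubgroup.closure {x : R | ∃ a b : R, x = a * b - b * a} = ⊤) (f : R →ₙ+* A)
    (hf : Function.Injective f) {n : ℕ} (hn : n ≤ 3) (h : ∀ x : R, f x ^ n = 0) (r : R) :
    r = 0 := by
  have h3 : ∀ x : R, f x ^ 3 = 0 := by
    intro x
    obtain ⟨m, hm⟩ := Nat.exists_eq_add_of_le hn
    rw [hm, pow_add, h x, zero_mul]
  apply zero_of_cube hR
  intro x
  apply hf
  rw [map_mul, map_mul, map_zero, ← h3 x]
  noncomm_ring

theorem main (n : ℕ) : ∃ k : ℕ, ∀ (R : Type u) [NonUnitalRing R] (C : Type v) [CommRing C]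
    (f : R →ₙ+* Matrix (Fin n) (Fin n) C), Function.Injective f →
    AddSubgroup.closure {x : R | ∃ a b : R, x = a * b - b * a} = ⊤ →
    (∀ r : R, (f r).charpoly = X ^ n) ∧ (∀ r : R, (n ! ^ k) • r = 0) ∧
      (n ≤ 3 → ∀ r : R, r = 0) := by
  obtain ⟨k, hk⟩ := KK_dvd n
  refine ⟨k, ?_⟩
  intro R _ C _ f hf hR
  have h : ∀ x : R, f x ^ n = 0 := fun x => pow_eq_zero (range_closure hR f) ⟨x, rfl⟩
  refine ⟨fun r => charpoly_eq (range_closure hR f) ⟨r, rfl⟩, fun r => ?_,
    fun hn r => zero_of_nil hR f hf hn h r⟩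
  obtain ⟨m, hm⟩ := hk
  rw [hm, mul_comm, mul_smul, torsion_of_nil hR f hf h r, smul_zero]

end Pool.Agent.TH537.LV
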